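import Pool.Agent.Run7.h260.LQ.Eff
import Pool.Agent.Run7.h260.LQ.Sep

/-!
# Weak nonvanishing for pairs dominated by complete intersections with normal crossing boundaries

Let `V` be a smooth complete intersection of dimension `n ≥ 1` of hypersurfaces of the degrees
`d i ≤ D` in `ℙ^(M + 1)` (for instance a smooth hypersurface) with `K_V = O(m')`, and let `B` be a
divisor with simple normal crossings on `V`, whose components are the intersections of `V` with
hypersurfaces of the degrees `b j`, so that `K_V + B = O(m)`, `m = m' + ∑ b j`. Let `V' ⇢ V` be a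
generically finite dominant rational map of any degree, and let `V' ⇢ W` be a dominant rational map of
degree `r` to any variety. Both maps are arbitrary: they are not related to each other, they need not
be quotients by groups, and their ramification is arbitrary. Let `D_W` be a reduced boundary on `W` which
contains the images of the prime divisors of (models of) `V'` over `B`.

**Theorem.** Suppose that `m ≥ 7 N + 4`, `(M + 1) N < m + M + 2`, `D + N ≤ m + 2` and `N ≤ m' + 1`.
(1) If `k r < (N + 1) (m + 2 - N)` then `h⁰(W, K_W + D_W) ≥ k`, on any smooth model of `W`, where `D_W`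
contains all exceptional prime divisors over `D_W`; in particular (`k = 1`) `K_W + D_W` is effective if
`r < (N + 1) (m + 2 - N)`. (2) If `V' = V` and `2 r < (N + 1) (m + 2 - N)` then the rational map given by
`|K_W + D_W|` is birational, and `K_W + D_W` is big.

So all projective log canonical pairs `(X, Δ)` such that `X` is birational to such a `W` and `Δ` has
coefficient `1` at the prime divisors of `X` which are in `D_W` satisfy Q1: `K_X + Δ` is linearly
equivalent to an effective divisor, if `D_W` is (the set of places over) a divisor on `X`. The bound for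
the degree is quadratic in the degree of the pair: if `K_V = O(m')` and `B` has degree `b` then, with
`N = m' + 1`, `r` may be any number less than `(m' + 2) (b + 1)`, if `b ≥ 6 m' + 11`,
`b ≥ (M + 1) (m' + 1) - m' - M - 1` and `b ≥ D - 1`. For `m' = 0` (Calabi-Yau complete intersections,
abelian and K3 surfaces of small degree) this is `r ≤ 2 b + 1`; the classical range, in which any `r`
points impose independent conditions on the forms of degree `m`, is `r ≤ b + 1`.

The two parts and their proofs are helper260's (`Pool/Agent/Run7/h260/LQ/*`), who handed them in as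
`MP_bc213e_ag.EffectiveNonvanishing` (nonvanishing for nef pairs) and `MP_2c56d9_ag.LogCanonicalMap` (weak
abundance); here they are stated for the question on weak nonvanishing, where the pair is only assumed
to be pseudo-effective (it is not even necessary to assume that). The proof: if the traces on `W` of the
logarithmic forms `P(x) ω₁`, `deg P = m`, vanish, then few generic points of `V` satisfy a relation for
all forms of degree `m`; by theorems on plane curves and the Cayley-Bacharach theorem they lie on curves
of degree `≤ N ≤ m' + 1` contained in `V`, which cover `V`, but the canonical forms `P(x) ω₀`,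
`deg P = m'`, vanish on such curves. The case of empty boundaries of large degree is the starting
project GP of helper162 and others (`MP_4329d7_ag.FormsOnImages`).
-/

set_option autoImplicit false
set_option linter.overlappingInstances false

open FF MvPolynomial Pool.Agent.W602.GT

namespace Pool.Agent.Results.MP_66b48b_ag.DominatedByCompleteIntersections

/-- `V` is the smooth complete intersection, of dimension `n`, of the hypersurfaces `F i = 0` of degree
`d i` in projective `(M + 1)`-space, `E` is its function field and `x` its generic point, `x 0 = 1` (a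
form vanishes at `x` if and only if it vanishes on `V`, that is, if it is in the radical of the ideal
generated by the `F i`), and `B` is the sum of the intersections of `V` with the hypersurfaces
`h j = 0` of degree `b j`, which do not contain `V`. At every point of `V` the gradients of the `F i`
and of those `h j` which vanish at the point are linearly independent: `V` is smooth, and `B` has
simple normal crossings. -/
structure IsPair {M c s : ℕ} {E : Type} [Field E] [Algebra ℂ E] (n : ℕ)
    (F : Fin c → MvPolynomial (Fin (M + 2)) ℂ) (d : Fin c → ℕ)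
    (h : Fin s → MvPolynomial (Fin (M + 2)) ℂ) (b : Fin s → ℕ) (x : Fin (M + 2) → E) : Prop where
  homF : ∀ i, (F i).IsHomogeneous (d i)
  homB : ∀ j, (h j).IsHomogeneous (b j)
  crossings : ∀ z : Fin (M + 2) → ℂ, z ≠ 0 → (∀ i, eval z (F i) = 0) →
    LinearIndependent ℂ (Sum.elim (fun (i : Fin c) (l : Fin (M + 2)) => eval z (pderiv l (F i)))
      fun (j : {j // eval z (h j) = 0}) (l : Fin (M + 2)) => eval z (pderiv l (h j)))
  one : x 0 = 1
  generic : ∀ (e : ℕ) (P : MvPolynomial (Fin (M + 2)) ℂ), P.IsHomogeneous e →
    (aeval x P = 0 ↔ P ∈ (Ideal.span (Set.range F)).radical)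
  gen : IntermediateField.adjoin ℂ (Set.range x) = ⊤
  proper : ∀ j, aeval x (h j) ≠ 0
  dim : Algebra.trdeg ℂ E = n
  codim : n + c = M + 1

/-- The place `Q` is in the boundary: its centre is on one of the hypersurfaces `h j = 0`, that is, one
of the functions `h j (x) / x l ^ (b j)` vanishes at `Q`. -/
def Boundary {M s : ℕ} {E : Type} [Field E] [Algebra ℂ E]
    (h : Fin s → MvPolynomial (Fin (M + 2)) ℂ) (b : Fin s → ℕ) (x : Fin (M + 2) → E)
    (Q : Place ℂ E) : Prop :=
  ∃ j l, x l ≠ 0 ∧ (b j : ℤ) * Q.ord (x l) < Q.ord (aeval x (h j))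

theorem IsPair.low {M c s n m m' D : ℕ} {E : Type} [Field E] [Algebra ℂ E]
    {F : Fin c → MvPolynomial (Fin (M + 2)) ℂ} {d : Fin c → ℕ}
    {h : Fin s → MvPolynomial (Fin (M + 2)) ℂ} {b : Fin s → ℕ} {x : Fin (M + 2) → E}
    (hV : IsPair n F d h b x) (hn : 1 ≤ n) (hd : ∀ i, d i ≤ D) (hm' : m' + M + 2 = ∑ i, d i)
    (hm : m = m' + ∑ j, b j) :
    1 ≤ M ∧ Pool.Agent.Run7.h260.LQ.LowDegreePair n m m' D (Boundary h b x) x := by
  have hc : c ≠ 0 := by
    rintro rfl
    simp at hm'
  have hD : 1 ≤ D := by
    by_contra hD
    have h1 : ∑ i, d i = 0 := Finset.sum_eq_zero fun i _ => by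
      have := hd i
      omega
    omega
  have hM : 1 ≤ M := by
    have := hV.codim
    omega
  have hCI : Pool.Agent.N162.GP.SmoothCI F d x :=
    ⟨hV.homF, fun z hz h0 => (hV.crossings z hz h0).comp Sum.inl Sum.inl_injective, hV.one,
      hV.generic, hV.gen⟩
  exact ⟨hM, Pool.Agent.Run7.h260.LQ.pair_of_snc hCI hV.homB hV.crossings hV.proper hn hV.dim
    hV.codim hm' hm hd hD⟩

/-- **Weak nonvanishing, effective and birational forms.** Let `(V, B)` be a smooth complete intersection
of dimension `n ≥ 1` with a divisor with simple normal crossings, `K_V = O(m')`, `K_V + B = O(m)`, `E` the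
function field of `V`, and `m ≥ 7 N + 4`, `(M + 1) N < m + M + 2`, `D + N ≤ m + 2`, `N ≤ m' + 1`. (1) Let `K`
be a finite extension of `E` (the function field of `V'`), and a finite extension of `L` (the function
field of `W`), and `BL` a set of places of `L` (the boundary of `W`) which contains all places below
places of `K` over `B`. If `k [K : L] < (N + 1) (m + 2 - N)` then there are `k` linearly independent
canonical forms on `W` with at most logarithmic poles, which are regular at the prime divisors outside
`BL`. (2) Let `E` be a finite extension of `L`, and let `BL` contain all places below places in `B`. If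
`2 [E : L] < (N + 1) (m + 2 - N)` then the ratios of such forms on `W` generate the function field `L` of
`W`, and `K_W + D_W` is big. -/
theorem result {n M c s D m m' N : ℕ} (hn : 1 ≤ n) {E : Type} [Field E] [Algebra ℂ E]
    {F : Fin c → MvPolynomial (Fin (M + 2)) ℂ} {d : Fin c → ℕ}
    {h : Fin s → MvPolynomial (Fin (M + 2)) ℂ} {b : Fin s → ℕ} {x : Fin (M + 2) → E}
    (hV : IsPair n F d h b x) (hd : ∀ i, d i ≤ D) (hm' : m' + M + 2 = ∑ i, d i)
    (hm : m = m' + ∑ j, b j) (h1 : 7 * N + 4 ≤ m) (h2 : (M + 1) * N < m + M + 2)
    (h3 : D + N ≤ m + 2) (h4 : N ≤ m' + 1) :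
    (∀ (k : ℕ) (K : Type) [Field K] [Algebra ℂ K] [Algebra E K] [IsScalarTower ℂ E K]
      [FiniteDimensional E K] (L : Type) [Field L] [Algebra ℂ L] [Algebra L K]
      [IsScalarTower ℂ L K] [FiniteDimensional L K] (BL : Place ℂ L → Prop),
      (∀ (P : Place ℂ L) (Q : Place ℂ K) (R : Place ℂ E) (e e' : ℕ), Over Q P e →
        Over Q R e' → Boundary h b x R → BL P) →
      k * Module.finrank L K < (N + 1) * (m + 2 - N) →
      ∃ η : Fin k → ((Fin n → Derivation ℂ L L) → L), LinearIndependent ℂ η ∧
        ∀ j, LogSec ℂ L n 1 BL (η j)) ∧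
    ∀ (L : Type) [Field L] [Algebra ℂ L] [Algebra L E] [IsScalarTower ℂ L E]
      [FiniteDimensional L E] (BL : Place ℂ L → Prop),
      (∀ (P : Place ℂ L) (Q : Place ℂ E) (e : ℕ), Over Q P e → Boundary h b x Q → BL P) →
      2 * Module.finrank L E < (N + 1) * (m + 2 - N) →
      IntermediateField.adjoin ℂ {z : L | ∃ ω ω' : (Fin n → Derivation ℂ L L) → L,
        LogSec ℂ L n 1 BL ω ∧ LogSec ℂ L n 1 BL ω' ∧
        ∃ D : Fin n → Derivation ℂ L L, ω' D ≠ 0 ∧ z = ω D / ω' D} = ⊤ ∧
      LogGeneralType ℂ L n BL := by
  obtain ⟨hM, hlow⟩ := hV.low hn hd hm' hm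
  haveI : Algebra.EssFiniteType ℂ E := Pool.Agent.N162.GP.ess_of_gen hV.gen
  obtain ⟨ω₀, hadj⟩ := hlow.forms
  obtain ⟨ω₁, hpl, hne, hsec⟩ := hlow.logForms
  refine ⟨?_, ?_⟩
  · intro k K _ _ _ _ _ L _ _ _ _ _ BL hBL hr
    haveI : Algebra.EssFiniteType ℂ K := Algebra.EssFiniteType.comp ℂ E K
    haveI : Algebra.EssFiniteType ℂ L := Pool.Agent.TH466.QG.ess_below (K := K)
    exact Pool.Agent.Run7.h260.LQ.lforms_k hM h1 h2 h3 h4 hlow.one hlow.gen hlow.dim hlow.cut hadj
      hn hBL hpl hne hsec hr
  · intro L _ _ _ _ _ BL hBL hr
    haveI : Algebra.EssFiniteType ℂ L := Pool.Agent.TH466.QG.ess_below (K := E)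
    refine ⟨Pool.Agent.Run7.h260.LQ.lbir hM h1 h2 h3 h4 hlow.one hlow.gen hlow.dim hlow.cut hadj
      hBL hpl hne hsec hr, Pool.Agent.Run7.h260.LQ.lgt (K' := E) hM h1 h2 h3 h4 hlow.one hlow.gen
        hlow.dim hlow.cut hadj (fun P Q R e e' h5 h6 h7 => hBL P Q e h5 ?_) hpl hne hsec hr⟩
    have h8 : R = Q := by
      have h9 : Over Q Q 1 := ⟨one_pos, fun f => by simp⟩
      exact (Pool.Agent.Y172.over_unique' h6 h9).1
    rwa [← h8]

end Pool.Agent.Results.MP_66b48b_ag.DominatedByCompleteIntersections
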