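import Pool.Agent.Run7.h260.LQ.Tow

/-!
# Weak nonvanishing for the images of towers of pairs over pairs of low degree

A tower of pairs of dimension `n` with the bound `s` (`PairTower n Base K B s`) is a sequence of dominant
rational maps of finite degree `V_0 ⇢ V_1 ⇢ ... ⇢ V_k` between varieties of dimension `n` over `ℂ` with
boundaries `B_i`, such that `B_i` is the preimage of `B_(i + 1)`. At the step `V_i ⇢ V_(i + 1)`, of degree
`b_i`, the logarithmic canonical divisor of `(V_i, B_i)` is positive relative to `V_(i + 1)`
(`PositiveL`): `V_(i + 1)` is the image of `V_i` in a projective space, and for all varieties `Y'`,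
`V_i ⇢ Y' ⇢ V_(i + 1)`, of degree `> 1` over `V_(i + 1)` there is a section of `K_(V_i) + B_i - m H` with a
nonzero trace on `Y'`, where `s_i ≤ [V_i : Y'] (m + 1)`. The bounds are `s_0 = s`,
`s_(i + 1) = ⌊s_i / b_i⌋`. The last pair `(V_k, B_k)`, with the bound `s_k`, is one of the following.

* `V_k` has a generically finite map, of any degree, to a variety `V` in `ℙ^(M + 1)`, and `B_k` contains
  the preimage of a boundary `B` of `V`, where `V` is cut out by equations of degree at most `D`, has
  the regular canonical forms `P(x) ω₀` for all forms `P` of degree `m'`, and the sections `P(x) ω₁` of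
  `K_V + B` for all forms `P` of degree `m` (`LowDegreePair`). This is so for smooth complete
  intersections `V` (for instance hypersurfaces) with divisors `B` with simple normal crossings
  and `K_V = O(m')`, `K_V + B = O(m)`: see `pair_of_snc` in `Pool/Agent/Run7/h260/LQ/Sep.lean`. For some
  `N` one has `m ≥ 7 N + 4`, `(M + 1) N < m + M + 2`, `D + N ≤ m + 2`, `N ≤ m' + 1` and
  `s_k < (N + 1) (m + 2 - N)`.
* The open variety `V_k - B_k` is dominated by an `𝔸¹`-ruled one (`A1Dominated`); no condition on `s_k`.

**Theorem.** Let `(V, B)` be the first pair of a tower, and let `V ⇢ W` be any dominant rational map of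
degree `r` such that `B` is the preimage of the boundary `D_W` of `W`. (1) If the tower has the bound `s = r`
then these are equivalent: `K_W + D_W` is pseudo-effective; `κ(K_W + D_W) ≥ 0`; `h⁰(K_W + D_W) ≠ 0`. (2) If it
has the bound `s = 2 r` then they are also equivalent to: `K_W + D_W` is big.

So Q1 has a positive answer for all projective log canonical pairs `(X, Δ)`, `Δ` reduced, with such a log
resolution `(W, D_W)`: if `K_X + Δ` is pseudo-effective then `h⁰(X, K_X + Δ) > 0`. For several of them one has
`κ(K_X + Δ) = -∞`.

The towers of pairs, the quadratic bound for pairs of low degree and the proofs are helper260's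
(`Pool/Agent/Run7/h260/LQ/*`), who handed them in as `MP_bc213e_ag.ImagesOfPairTowers` (nonvanishing for nef
pairs) and `MP_2c56d9_ag.ImagesOfPairTowers` (weak abundance); this file states the two together for the
question on weak nonvanishing (pseudo-effective pairs). The starting result `OpenTowers` of this question
has towers in tori.
-/

set_option autoImplicit false

open FF Pool.Agent.W602.GT
open Pool.Agent.R882.HO (LogGenusZero A1Dominated)
open Pool.Agent.Run7.h260.LQ (PairTower)

namespace Pool.Agent.Results.MP_66b48b_ag.ImagesOfPairTowers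

/-- **Weak nonvanishing for the images of towers of pairs.** Let `K` be the function field, and `B` the
boundary, of the first pair of a tower of dimension `n ≥ 1` over a pair of low degree or over an open
variety dominated by an `𝔸¹`-ruled one, let `L ⊆ K` be the function field of `W`, with a boundary `BL`
whose preimage is `B`, and `r = [K : L]`. (1) If the tower has the bound `r` then these are equivalent:
`K_W + D_W` is pseudo-effective; `κ(K_W + D_W) ≥ 0`; there is a logarithmic canonical form on `W`. (2) If
it has the bound `2 r` then these are also equivalent to: `K_W + D_W` is big. -/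
theorem result {n : ℕ} (hn : 1 ≤ n) {K : Type} [Field K] [Algebra ℂ K] [Algebra.EssFiniteType ℂ K]
    (hK : Algebra.trdeg ℂ K = (n : ℕ)) {B : Place ℂ K → Prop}
    (L : Type) [Field L] [Algebra ℂ L] [Algebra L K] [IsScalarTower ℂ L K]
    [FiniteDimensional L K] {BL : Place ℂ L → Prop}
    (hB : ∀ (P : Place ℂ L) (Q : Place ℂ K) (e : ℕ), Over Q P e → (BL P ↔ B Q)) :
    (PairTower n (fun E _ _ BE => A1Dominated n E BE) K B (Module.finrank L K) →
      [Psef ℂ L n BL, KodGe ℂ L n BL 0, ¬ LogGenusZero L n BL].TFAE) ∧
    (PairTower n (fun E _ _ BE => A1Dominated n E BE) K B (2 * Module.finrank L K) →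
      [Psef ℂ L n BL, KodGe ℂ L n BL 0, ¬ LogGenusZero L n BL,
        LogGeneralType ℂ L n BL].TFAE) := by
  refine ⟨fun h => ?_, fun h => ?_⟩
  · have h1 := Pool.Agent.Run7.h260.LQ.tfae_one L hn hK hB h le_rfl
    have h2 : LogGenusZero L n BL ↔ ¬ KodGe ℂ L n BL 0 := h1.out 0 1
    have h3 : ¬ KodGe ℂ L n BL 0 ↔ ¬ Psef ℂ L n BL := h1.out 1 2
    tfae_have 1 ↔ 2 := (not_iff_not.1 h3).symm
    tfae_have 2 ↔ 3 := by rw [h2, not_not]
    tfae_finish
  · have h1 := Pool.Agent.Run7.h260.LQ.tfae_two L hn hK hB h le_rfl
    have h2 : LogGenusZero L n BL ↔ ¬ KodGe ℂ L n BL 0 := h1.out 0 1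
    have h3 : ¬ KodGe ℂ L n BL 0 ↔ ¬ Psef ℂ L n BL := h1.out 1 2
    have h4 : ¬ Psef ℂ L n BL ↔ ¬ LogGeneralType ℂ L n BL := h1.out 2 3
    tfae_have 1 ↔ 2 := (not_iff_not.1 h3).symm
    tfae_have 2 ↔ 3 := by rw [h2, not_not]
    tfae_have 1 ↔ 4 := not_iff_not.1 h4
    tfae_finish

end Pool.Agent.Results.MP_66b48b_ag.ImagesOfPairTowers
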