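import Pool.Agent.Run7.h528.NN.Log
import Pool.Agent.Run7.h528.NR.Main
import Pool.Agent.N110.RK.Stat
import Pool.Agent.N110.Can
import Pool.Agent.N110.IM.Img
import Pool.Agent.N110.IM.Defs

/-!
Weak nonvanishing for pairs dominated by a pair with a nilpotent group of birational self-maps of
maximal growth rank; the irregularity is arbitrary.
-/

set_option autoImplicit false

open FF Pool.Agent.W602.GT Pool.Agent.Y172 Pool.Agent.R887 Pool.Agent.N110 Run7.h528.NR
open Run7.h528.NN

/-- Let `(X, Δ)` be a projective pair of dimension `n ≥ 1`, `X` normal and `Δ ≥ 0` a `ℚ`-divisor, for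
instance a log canonical pair. The group of the divisors on `X` modulo numerical equivalence is
finitely generated by the theorem of Néron and Severi; this is the hypothesis `hN`. Suppose that
`(X, Δ)` is dominated by a pair `(X', Δ')` of dimension `n` (`Δ'` need not be effective): there is a
dominant rational map `X' ⇢ X`, generically finite, given by the homomorphism `π` of the function
fields, such that the pull back of `K_X + Δ` is at most `K_X' + Δ'` over the prime divisors of `X'`.
For instance let `X` be the quotient of `X'` by a finite group and `K_X' + Δ'` the pull back of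
`K_X + Δ`, or let `X = X'` and `Δ = Δ'`.

Let `f_1, ..., f_{n-1}` be birational self-maps of `X'` which generate a nilpotent group `G` (not
necessarily abelian), and which have nothing to do with the map `X' ⇢ X`; they may contract
divisors. The elements of `G` preserve `K_X' + Δ'` (over the prime divisors of `X'` the divisor
`g^* (K_X' + Δ')` is at most `K_X' + Δ'`), or `Δ' = 0` and `X'` has canonical singularities. Suppose
that the group has maximal rank: for `v` in `ℤ ^ (n-1)` the degree `g_v^* H · H ^ (n - 1)` of the map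
`g_v` of `X'` with `g_v^* = f_1^* ^ (v_1) ... f_{n-1}^* ^ (v_{n-1})` (a product in this order) is at
least `c exp (δ |v|)` for some `c, δ > 0`. More generally `r` maps are allowed if the growth rank of
the degrees is at least `s = n - 1`.

Then weak nonvanishing holds for `(X, Δ)`: the divisor `K_X + Δ` is pseudo-effective if and only if
it is numerically equivalent to an effective `ℚ`-divisor `D`. In this case `D` is unique, the
numerical dimension of `K_X + Δ` is zero, and if `K_X + Δ` is nef, then `D = 0`, that is, `K_X + Δ` is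
numerically trivial. Nothing is assumed about the irregularity of `X`. For growth rank `s < n - 1` the
numerical dimension is at most `n - 1 - s`. -/
theorem Pool.Agent.Results.MP_66b48b_ag.NilpotentWeak.result
    {K K' : Type} [Field K] [Algebra ℂ K] [Field K'] [Algebra ℂ K'] {N N' n : ℕ}
    {y : Fin (N + 1) → K} {y' : Fin (N' + 1) → K'} (hy : NormalModel y) (hy' : NormalModel y')
    (hn : Algebra.trdeg ℂ K = n) (hn' : Algebra.trdeg ℂ K' = n) (hn0 : 0 < n)
    (hN : NeronSeveri y) {Δ' : Place ℂ K' → ℚ} (hΔ' : {P | IsPrimeDivisor y' P ∧ Δ' P ≠ 0}.Finite)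
    {r s : ℕ} (hs : 0 < s) (f : Fin r → (K' ≃ₐ[ℂ] K'))
    (hnil : Group.IsNilpotent (Subgroup.closure (Set.range f)))
    (hP : (∀ g ∈ Subgroup.closure (Set.range f), PullLe g y' n Δ') ∨ (Δ' = 0 ∧ Canonical y' n))
    (hrank : GrowthRankGe (nprod f) y' n s ∨ (s = r ∧ ExpGrowth (nprod f) y' n))
    {Δ : Place ℂ K → ℚ} (hΔ : Effective y Δ) (π : K →ₐ[ℂ] K')
    (hπ : IM.ImagePullLe π y n Δ y' Δ') :
    s < n ∧ NumDimLt y n Δ (n - s) ∧
      (s + 1 = n → (LogPsef y n Δ ↔ ∃ D : Place ℂ K → ℚ, Effective y D ∧ NumEq y n Δ D) ∧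
        (LogPsef y n Δ → ∃ D : Place ℂ K → ℚ, Effective y D ∧ NumEq y n Δ D ∧
          (∀ D', Effective y D' → NumEq y n Δ D' → ∀ P, IsPrimeDivisor y P → D' P = D P) ∧
          (LogNef y n Δ → ∀ P, IsPrimeDivisor y P → D P = 0))) := by
  have hP' : ∀ g ∈ Subgroup.closure (Set.range f), PullLe g y' n Δ' := by
    rcases hP with h | ⟨rfl, hcan'⟩
    · exact h
    · exact fun g _ => pullLe_canonical hy' hn' hcan' g
  have hrank' : GrowthRankGe (nprod f) y' n s := by
    rcases hrank with h | ⟨rfl, h⟩
    · exact h
    · exact RK.growthRank_of_exp h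
  obtain ⟨h1, h2'⟩ := nil_main hy' hn' hn0 hΔ' hs f hnil hP' hrank'
  have h2 := IM.numDimLt_img hy hy' hn hn' π hπ (Nat.sub_le _ _) h2'
  refine ⟨h1, h2, fun h3 => ?_⟩
  rw [show n - s = 1 by omega] at h2
  have key := fun hps : LogPsef y n Δ => num_eff hy hn hn0 hN hΔ.2 hps h2
  refine ⟨⟨fun hps => ?_, fun ⟨D, hD, hE⟩ => psef_of_num hD hE.1⟩, key⟩
  obtain ⟨D, hD, hE, -⟩ := key hps
  exact ⟨D, hD, hE⟩
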