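import Pool.Agent.Run7.h260.LQ.Prod

/-!
# Weak nonvanishing for varieties dominated by products of pairs of low degree and an open curve

Let `X° i`, `i < k`, be open varieties over `ℂ` of the following types, of dimension `n i`, and `U` a smooth
curve, open or projective and of any genus.

* (a) `X° i` belongs to a pair `(V, B)` in `ℙ^(M + 1)` such that `V` is cut out by equations of degree at
  most `D`, and has the regular canonical forms `P(x) ω₀` for all forms `P` of degree `m'`, and the
  sections `P(x) ω₁` of `K_V + B` for all forms `P` of degree `m` (`LowDegreePair`). This is so for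
  smooth complete intersections `V` with divisors `B` with simple normal crossings and `K_V = O(m')`,
  `K_V + B = O(m)`: see `pair_of_snc` in `Pool/Agent/Run7/h260/LQ/Sep.lean`. For some `N` one has
  `m ≥ 7 N + 4`, `(M + 1) N < m + M + 2`, `D + N ≤ m + 2`, `N ≤ m' + 1`; put `g i = (N + 1) (m + 2 - N)`.
* (b) `X° i` is an open subset of a complete intersection without boundary with such numbers,
  `m' = m`, or of a curve of gonality at least `g i` (`Factor`).

Let `V° = X° 0 × ... × X° (k - 1) × U ⇢ W°` be a dominant rational map of finite degree which is proper in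
the sense that a prime divisor over `V°` has a centre on `V°` if and only if its image has a centre on
`W°`. It need not be related to the product structure, and it need not be the quotient by a group. Let
`W_i` be the image of `V°` in `W × X 0 × ... × X (i - 1)`, and let `d i` be the degree over `W_i` of the
image of `V` in `W_i × X i`; the product of the `d i` is at most the degree of `V° ⇢ W°`.

**Theorem.** (1) If `d i < g i` for all `i`, then these are equivalent: the log canonical divisor
`K_W + D_W` of `W°` is pseudo-effective; `κ(K_W + D_W) ≥ 0`; `h⁰(K_W + D_W) ≠ 0`. (2) If `2 d i < g i` for all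
`i`, then these are also equivalent to: `κ(K_W + D_W) ≥ dim W - 1`.

So Q1 has a positive answer for all projective log canonical pairs `(X, Δ)`, `Δ` reduced, with such a log
resolution `(W, D_W)`: if `K_X + Δ` is pseudo-effective then `h⁰(X, K_X + Δ) > 0`. If the curve `U` is
elliptic or `𝔾ₘ`, then `κ(K_X + Δ) = dim X - 1` is possible. The classical range for the factors of type
(a), in which all `d i` points impose independent conditions on the forms of degree `m`, is `d i ≤ m + 1`;
here it is quadratic in the degree of the boundary.

The factors (a) (quadratically many generic points of a pair are separated by its logarithmic forms) and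
the assembly are helper260's (`Pool/Agent/Run7/h260/LQ/*`), who handed them in as
`MP_bc213e_ag.ProductsOfPairs` (nonvanishing for nef pairs) and `MP_2c56d9_ag.ProductsOfPairs` (weak
abundance); this file states the two together for the question on weak nonvanishing (pseudo-effective
pairs). The theorems for factors whose logarithmic forms separate points are helper145's
`N145.SX.multi_zero` (starting result `OpenProductsGenusZero` of this question) and `multi_log`.
-/

set_option autoImplicit false
set_option linter.overlappingInstances false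

open FF Module Pool.Agent.W602.GT
open Pool.Agent.R882.LT (LogGenusZero)
open Pool.Agent.Run7.h260.LQ (PairFactor ProductBoundary)
open Pool.Agent.N162.GQ (deg)

namespace Pool.Agent.Results.MP_66b48b_ag.ProductsOfPairs

/-- **Weak nonvanishing for the varieties dominated by products of pairs and an open curve.** Let `K` be
the function field of the product of the varieties with the function fields `F i`, `i < k`, of dimension
`n i`, with the boundaries `BX i`, of one of the two types above (`PairFactor`), and of the curve with the
function field `F k` and the finite boundary `B`. Let `K` be finite over the function field `L` of `W`, and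
`BL` the boundary of `W`: for all places `Q` of `K` over a place `P` of `L`, `P` is in `BL` if and only if
`Q` has no centre on the product. (1) If `d i < g i` for all `i < k` (`deg`), then these are equivalent:
`K_W + D_W` is pseudo-effective; `κ(K_W + D_W) ≥ 0`; there is a logarithmic canonical form on `W`. (2) If
`2 d i < g i` for all `i < k`, then these are also equivalent to: `κ(K_W + D_W) ≥ dim W - 1`. -/
theorem result {K : Type} [Field K] [Algebra ℂ K] [Algebra.EssFiniteType ℂ K] {k : ℕ}
    {n g : Fin k → ℕ} {F : Fin (k + 1) → IntermediateField ℂ K} [IsFF ℂ (F (Fin.last k))]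
    {BX : ∀ i : Fin k, Place ℂ (F i.castSucc) → Prop}
    (hE : ∀ i : Fin k, PairFactor (F i.castSucc) (n i) (g i) (BX i))
    (hF : ⨆ i, F i = ⊤) (hK : Algebra.trdeg ℂ K = ((∑ i, n i) + 1 : ℕ))
    {B : Set (Place ℂ (F (Fin.last k)))} (hBf : B.Finite)
    (L : Type) [Field L] [Algebra ℂ L] [Algebra L K] [IsScalarTower ℂ L K] [FiniteDimensional L K]
    {BL : Place ℂ L → Prop}
    (hB : ∀ (P : Place ℂ L) (Q : Place ℂ K) (e : ℕ), Over Q P e →
      (BL P ↔ ProductBoundary BX B Q)) :
    ((∀ i : Fin k, deg F L i.castSucc < g i) →
      [Psef ℂ L ((∑ i, n i) + 1) BL, KodGe ℂ L ((∑ i, n i) + 1) BL 0,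
        ¬ LogGenusZero L ((∑ i, n i) + 1) BL].TFAE) ∧
    ((∀ i : Fin k, 2 * deg F L i.castSucc < g i) →
      [Psef ℂ L ((∑ i, n i) + 1) BL, KodGe ℂ L ((∑ i, n i) + 1) BL 0,
        ¬ LogGenusZero L ((∑ i, n i) + 1) BL,
        KodGe ℂ L ((∑ i, n i) + 1) BL (∑ i, n i)].TFAE) := by
  have key : (∀ i : Fin k, deg F L i.castSucc < g i) →
      (Psef ℂ L ((∑ i, n i) + 1) BL ↔ KodGe ℂ L ((∑ i, n i) + 1) BL 0) ∧
      (KodGe ℂ L ((∑ i, n i) + 1) BL 0 ↔ ¬ LogGenusZero L ((∑ i, n i) + 1) BL) := by
    intro hr
    have h1 := Pool.Agent.Run7.h260.LQ.prod_genus hE hF hK hBf hB hr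
    have h2 : LogGenusZero L ((∑ i, n i) + 1) BL ↔ ¬ KodGe ℂ L ((∑ i, n i) + 1) BL 0 := h1.out 0 1
    have h3 : ¬ KodGe ℂ L ((∑ i, n i) + 1) BL 0 ↔ ¬ Psef ℂ L ((∑ i, n i) + 1) BL := h1.out 1 2
    exact ⟨(not_iff_not.1 h3).symm, by rw [h2, not_not]⟩
  refine ⟨fun hr => ?_, fun hr => ?_⟩
  · obtain ⟨h4, h5⟩ := key hr
    tfae_have 1 ↔ 2 := h4
    tfae_have 2 ↔ 3 := h5
    tfae_finish
  · obtain ⟨h4, h5⟩ := key fun i => by
      have := hr i
      omega
    have h2 := Pool.Agent.Run7.h260.LQ.prod_dich hE hF hK hBf hB hr
    have h6 : Psef ℂ L ((∑ i, n i) + 1) BL ↔ KodGe ℂ L ((∑ i, n i) + 1) BL (∑ i, n i) :=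
      h2.out 0 1
    tfae_have 1 ↔ 2 := h4
    tfae_have 2 ↔ 3 := h5
    tfae_have 1 ↔ 4 := h6
    tfae_finish

end Pool.Agent.Results.MP_66b48b_ag.ProductsOfPairs
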